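import Pool.Agent.Helper7.PX.Goals
import Pool.Agent.Helper33.RR.GT

/-!
# Project PX: packet FC (algebra at a prime)
-/

set_option autoImplicit false

open Finset

open scoped Classical

namespace Pool.Agent.Helper32.PX

open Pool.Agent.Helper88.PP (SS ee LA VV cost)
open Pool.Agent.Helper88.RR (ab TB Db)
open Pool.Agent.Helper88.CG (qE mE)
open Pool.Agent.Helper7.PX (TE fold cs cw)

lemma zero_notMem_LA {z m m' : ℕ} : 0 ∉ LA z m m' := by
  unfold LA SS
  rw [mem_filter, mem_filter, mem_Ico]
  rintro ⟨⟨⟨h, _⟩, _⟩, _⟩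
  omega

lemma cost_upd {z : ℕ} {P : Finset ℕ} (h : P) (r : P → ℕ) (s : ℕ) (hr : r h = 0) :
    cost z (Function.update r h s) = cost z r + (if s = 0 then 0 else ee z s) := by
  unfold cost
  rw [← Finset.add_sum_erase univ _ (mem_univ h)]
  rw [← Finset.add_sum_erase univ (fun i => if r i = 0 then 0 else ee z (r i)) (mem_univ h)]
  rw [Function.update_self, hr, if_pos rfl, zero_add, add_comm]
  congr 1
  refine Finset.sum_congr rfl fun i hi => ?_
  rw [Function.update_of_ne (ne_of_mem_erase hi)]

lemma mem_upd {E z : ℕ} {P : Finset ℕ} (h : P) (r : P → ℕ) (hr : r ∈ TE E z P) (hrh : r h = 0)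
    (s : ℕ) (hs : s ∈ insert 0 (LA z (mE E) (qE E * mE E))) :
    Function.update r h s ∈ TE E z P ↔ cost z r + (if s = 0 then 0 else ee z s) ≤ E / 16 := by
  unfold TE TB at hr ⊢
  rw [mem_filter, Fintype.mem_piFinset] at hr ⊢
  rw [cost_upd h r s hrh]
  constructor
  · exact fun h => h.2
  · intro h1
    refine ⟨fun i => ?_, h1⟩
    by_cases hi : i = h
    · subst hi
      rw [Function.update_self]
      exact hs
    · rw [Function.update_of_ne hi]
      exact hr.1 i

lemma cw_upd {E z : ℕ} {P : Finset ℕ} (B : Finset ℕ) (t : ℝ) (h : P) (r : P → ℕ) (s : ℕ)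
    (hr : r h = 0) : cw E z B t (Function.update r h s) =
      (if s = 0 then 1 else cs B t h * ab (mE E) (qE E) z s) * cw E z B t r := by
  unfold cw
  rw [← Finset.mul_prod_erase univ _ (mem_univ h)]
  rw [← Finset.mul_prod_erase univ
    (fun i : P => if r i = 0 then (1 : ℝ) else cs B t i * ab (mE E) (qE E) z (r i)) (mem_univ h)]
  rw [Function.update_self, hr, if_pos rfl, one_mul]
  congr 1
  refine Finset.prod_congr rfl fun i hi => ?_
  rw [Function.update_of_ne (ne_of_mem_erase hi)]

lemma fc1 (E z : ℕ) (P B : Finset ℕ) (t : ℝ) (h : P) (r : P → ℕ)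
    (hV : VV z (mE E) (qE E * mE E) ≠ 0) (hr : r ∈ TE E z P) (hrh : r h = 0) :
    fold E z h (cw E z B t) r =
      (1 + cs B t h * (1 - Db (mE E) (qE E) (E / 16) z (cost z r))) * cw E z B t r := by
  set A := LA z (mE E) (qE E * mE E) with hA
  have h0A : 0 ∉ A := zero_notMem_LA
  have hcost : cost z r ≤ E / 16 := by
    unfold TE TB at hr
    exact (mem_filter.mp hr).2
  unfold Pool.Agent.Helper7.PX.fold
  rw [if_pos hrh, Finset.sum_insert h0A]
  have e0 : (if Function.update r h 0 ∈ TE E z P then cw E z B t (Function.update r h 0) else 0)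
      = cw E z B t r := by
    rw [if_pos ((mem_upd h r hr hrh 0 (mem_insert_self _ _)).mpr (by simpa using hcost)),
      cw_upd B t h r 0 hrh, if_pos rfl, one_mul]
  rw [e0]
  have e1 : ∀ s ∈ A, (if Function.update r h s ∈ TE E z P then cw E z B t (Function.update r h s)
      else 0) = (if cost z r + ee z s ≤ E / 16 then ab (mE E) (qE E) z s else 0) *
        (cs B t h * cw E z B t r) := by
    intro s hs
    have hs0 : s ≠ 0 := fun h => h0A (h ▸ hs)
    have e2 := mem_upd h r hr hrh s (mem_insert_of_mem hs)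
    rw [if_neg hs0] at e2
    by_cases h3 : cost z r + ee z s ≤ E / 16
    · rw [if_pos (e2.mpr h3), if_pos h3, cw_upd B t h r s hrh, if_neg hs0]
      ring
    · rw [if_neg (fun h4 => h3 (e2.mp h4)), if_neg h3, zero_mul]
  rw [Finset.sum_congr rfl e1, ← Finset.sum_mul, ← Finset.sum_filter]
  have e6 : Db (mE E) (qE E) (E / 16) z (cost z r) =
      ∑ s ∈ A.filter (fun s => ¬ cost z r + ee z s ≤ E / 16), ab (mE E) (qE E) z s := by
    unfold Db
    apply Finset.sum_congr _ (fun _ _ => rfl)
    apply Finset.filter_congr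
    intro s _
    omega
  have e7 := Finset.sum_filter_add_sum_filter_not A
    (fun s => cost z r + ee z s ≤ E / 16) (fun s => ab (mE E) (qE E) z s)
  rw [Pool.Agent.Helper33.RR.sum_ab _ _ _ hV, ← e6] at e7
  have e8 : ∑ s ∈ A.filter (fun s => cost z r + ee z s ≤ E / 16), ab (mE E) (qE E) z s
      = 1 - Db (mE E) (qE E) (E / 16) z (cost z r) := by linarith
  rw [e8]
  ring

/-- PX-FC. -/
theorem fc : Pool.Agent.Helper7.PX.StmtFC := by
  intro E z P B t h r ht hm hz hV hr
  refine ⟨fc1 E z P B t h r hV hr, ?_⟩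
  intro h' hne
  set A := LA z (mE E) (qE E * mE E) with hA
  have h0A : 0 ∉ A := zero_notMem_LA
  have hab : ∀ s, 0 ≤ ab (mE E) (qE E) z s := fun s => Pool.Agent.Helper33.RR.ab_nonneg _ _ _ _
  have hz0 : (r h ≠ 0 ∨ r h' ≠ 0) → fold E z h' (fold E z h (cw E z B t)) r = 0 := by
    intro hor
    unfold Pool.Agent.Helper7.PX.fold
    by_cases hr' : r h' = 0
    · rw [if_pos hr']
      have hrh : r h ≠ 0 := hor.resolve_right (fun h => h hr')
      refine Finset.sum_eq_zero fun s _ => ?_
      split_ifs with h1 h2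
      · rw [Function.update_of_ne hne.symm] at h2
        exact absurd h2 hrh
      · rfl
      · rfl
    · rw [if_neg hr']
  refine ⟨?_, hz0⟩
  have hnn : 0 ≤ (1 + |cs B t h|) * (1 + |cs B t h'|) * |cw E z B t r| := by positivity
  by_cases hrh : r h = 0
  swap
  · rw [hz0 (Or.inl hrh), abs_zero]
    exact hnn
  by_cases hrh' : r h' = 0
  swap
  · rw [hz0 (Or.inr hrh'), abs_zero]
    exact hnn
  have e1 : ∀ s ∈ insert 0 A, |(if Function.update r h' s ∈ TE E z P then
      fold E z h (cw E z B t) (Function.update r h' s) else 0)|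
      ≤ (1 + |cs B t h|) * |cw E z B t r| *
        (if s = 0 then 1 else |cs B t h'| * ab (mE E) (qE E) z s) := by
    intro s hs
    have hnn2 : 0 ≤ (1 + |cs B t h|) * |cw E z B t r| *
        (if s = 0 then 1 else |cs B t h'| * ab (mE E) (qE E) z s) := by
      have := hab s
      split_ifs <;> positivity
    by_cases h1 : Function.update r h' s ∈ TE E z P
    · rw [if_pos h1]
      have h2 : Function.update r h' s h = 0 := by
        rw [Function.update_of_ne hne.symm]
        exact hrh
      rw [fc1 E z P B t h _ hV h1 h2, cw_upd B t h' r s hrh', abs_mul, abs_mul]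
      have hD0 := Pool.Agent.Helper33.RR.Db_nonneg (mE E) (qE E) (E / 16) z
        (cost z (Function.update r h' s))
      have hD1 := Pool.Agent.Helper33.RR.Db_le (mE E) (qE E) (E / 16) z
        (cost z (Function.update r h' s)) hV
      have h3 : |1 + cs B t h * (1 - Db (mE E) (qE E) (E / 16) z
          (cost z (Function.update r h' s)))| ≤ 1 + |cs B t h| := by
        refine (abs_add_le _ _).trans ?_
        rw [abs_one, abs_mul]
        have h4 : |1 - Db (mE E) (qE E) (E / 16) z (cost z (Function.update r h' s))| ≤ 1 := by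
          rw [abs_le]
          constructor <;> linarith
        have h5 := mul_le_mul_of_nonneg_left h4 (abs_nonneg (cs B t h))
        linarith
      have h6 : |(if s = 0 then 1 else cs B t h' * ab (mE E) (qE E) z s)|
          = (if s = 0 then 1 else |cs B t h'| * ab (mE E) (qE E) z s) := by
        split_ifs
        · exact abs_one
        · rw [abs_mul, abs_of_nonneg (hab s)]
      rw [h6]
      have h7 : 0 ≤ (if s = 0 then 1 else |cs B t h'| * ab (mE E) (qE E) z s) := by
        have := hab s
        split_ifs <;> positivity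
      calc |1 + cs B t h * (1 - Db (mE E) (qE E) (E / 16) z (cost z (Function.update r h' s)))| *
          ((if s = 0 then 1 else |cs B t h'| * ab (mE E) (qE E) z s) * |cw E z B t r|)
          ≤ (1 + |cs B t h|) *
          ((if s = 0 then 1 else |cs B t h'| * ab (mE E) (qE E) z s) * |cw E z B t r|) :=
            mul_le_mul_of_nonneg_right h3 (by positivity)
        _ = _ := by ring
    · rw [if_neg h1, abs_zero]
      exact hnn2
  have e2 : fold E z h' (fold E z h (cw E z B t)) r = ∑ s ∈ insert 0 A,
      (if Function.update r h' s ∈ TE E z P then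
        fold E z h (cw E z B t) (Function.update r h' s) else 0) := by
    conv_lhs => unfold Pool.Agent.Helper7.PX.fold
    rw [if_pos hrh']
    rfl
  rw [e2]
  refine (Finset.abs_sum_le_sum_abs _ _).trans ((Finset.sum_le_sum e1).trans (le_of_eq ?_))
  rw [← Finset.mul_sum, Finset.sum_insert h0A, if_pos rfl]
  have e3 : ∑ s ∈ A, (if s = 0 then 1 else |cs B t h'| * ab (mE E) (qE E) z s)
      = |cs B t h'| := by
    rw [Finset.sum_congr rfl (fun s hs => if_neg (fun h : s = 0 => h0A (h ▸ hs))),
      ← Finset.mul_sum, Pool.Agent.Helper33.RR.sum_ab _ _ _ hV, mul_one]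
  rw [e3]
  ring

end Pool.Agent.Helper32.PX
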